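import Mathlib

set_option autoImplicit false

/-!
# The partite construction for edge-coloured graphs

The partite construction of Nesetril and Rodl with a control of the copies of all graphs that are
not disconnected by two independent sets, and with passive parts (passengers) that are never used
in the amalgamations.
-/

namespace Pool.Agent.Lib.MP_3240be_co.H36.Chrom

open Combinatorics

/-- `H` stays connected (and nonempty) after the deletion of two independent sets, in terms of
sets closed under adjacency. -/
def CC {W : Type} (H : SimpleGraph W) : Prop :=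
  ∀ I J : W → Prop, (∀ x y, I x → I y → ¬ H.Adj x y) → (∀ x y, J x → J y → ¬ H.Adj x y) →
    (∃ x, ¬ I x ∧ ¬ J x) ∧ ∀ A : W → Prop, (∃ x, ¬ I x ∧ ¬ J x ∧ A x) →
      (∀ x y, ¬ I x → ¬ J x → ¬ I y → ¬ J y → H.Adj x y → A x → A y) →
      ∀ y, ¬ I y → ¬ J y → A y

/-- A finite partite graph with edges coloured by `Fin r`, its parts indexed by `α`. -/
structure PG (r : ℕ) (α : Type) where
  V : Type
  fin : Finite V
  E : Fin r → V → V → Prop
  part : V → α
  symm : ∀ b x y, E b x y → E b y x
  disj : ∀ a b x y, E a x y → E b x y → a = b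
  partite : ∀ b x y, E b x y → part x ≠ part y

variable {r : ℕ} {α : Type}

/-- Copies of `H` in `P'` come from `P`, with the same colours and parts. -/
def Lift {W : Type} (H : SimpleGraph W) (P' P : PG r α) : Prop :=
  ∀ f : W → P'.V, (∀ x y, H.Adj x y → ∃ b, P'.E b (f x) (f y)) →
    ∃ g : W → P.V, (∀ b x y, H.Adj x y → P'.E b (f x) (f y) → P.E b (g x) (g y)) ∧
      (∀ x y, g x = g y → f x = f y) ∧ ∀ x, P.part (g x) = P'.part (f x)

/-- `P'` arrows `P` for the colour classes in `T`. -/
def Arrow (K : Type) (P' P : PG r α) (T : Set (α × α × Fin r)) : Prop :=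
  ∀ κ : P'.V → P'.V → K, ∃ e : P.V → P'.V, Function.Injective e ∧
    (∀ b x y, P.E b x y → P'.E b (e x) (e y)) ∧ (∀ x, P'.part (e x) = P.part x) ∧
    ∀ t ∈ T, ∀ x y x' y', P.part x = t.1 → P.part y = t.2.1 → P.E t.2.2 x y →
      P.part x' = t.1 → P.part y' = t.2.1 → P.E t.2.2 x' y' →
      κ (e x) (e y) = κ (e x') (e y')

/-- The passengers (vertices whose part satisfies `pas`) form disjoint transversal blocks. -/
def Pass (pas : α → Prop) (P : PG r α) : Prop :=
  ∃ (ι : Type) (id : P.V → ι),
    (∀ b x y, P.E b x y → pas (P.part x) → pas (P.part y) → id x = id y) ∧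
    ∀ x y, pas (P.part x) → P.part x = P.part y → id x = id y → x = y

/-- The edges of `P` respect a relation between the parts. -/
def Resp (R : Fin r → α → α → Prop) (P : PG r α) : Prop :=
  ∀ b x y, P.E b x y → R b (P.part x) (P.part y)

section Step

variable (P : PG r α) (i j : α) (a : Fin r)

/-- The alphabet: the edges of colour `a` from part `i` to part `j`. -/
abbrev Alph : Type := {p : P.V × P.V // P.part p.1 = i ∧ P.part p.2 = j ∧ P.E a p.1 p.2}

/-- The vertices of the new graph. -/
abbrev NV (ι : Type) : Type := (ι → P.V) ⊕ (ι → P.V) ⊕ (P.V × Line (Alph P i j a) ι)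

/-- The copy of `P` along a line. -/
noncomputable def emb {ι : Type} (L : Line (Alph P i j a) ι) (x : P.V) : NV P i j a ι := by
  classical
  exact if P.part x = i then Sum.inl (fun m => ((L.idxFun m).map (fun e => e.1.1)).getD x)
    else if P.part x = j then
      Sum.inr (Sum.inl (fun m => ((L.idxFun m).map (fun e => e.1.2)).getD x))
    else Sum.inr (Sum.inr (x, L))

variable {P i j a}

theorem emb_i {ι : Type} (L : Line (Alph P i j a) ι) {x : P.V} (h : P.part x = i) :
    emb P i j a L x = Sum.inl (fun m => ((L.idxFun m).map (fun e => e.1.1)).getD x) := by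
  unfold emb
  rw [if_pos h]

theorem emb_j {ι : Type} (hij : i ≠ j) (L : Line (Alph P i j a) ι) {x : P.V}
    (h : P.part x = j) :
    emb P i j a L x = Sum.inr (Sum.inl (fun m => ((L.idxFun m).map (fun e => e.1.2)).getD x)) := by
  unfold emb
  rw [if_neg (by rw [h]; exact hij.symm), if_pos h]

theorem emb_z {ι : Type} (L : Line (Alph P i j a) ι) {x : P.V} (h : P.part x ≠ i)
    (h' : P.part x ≠ j) : emb P i j a L x = Sum.inr (Sum.inr (x, L)) := by
  unfold emb
  rw [if_neg h, if_neg h']

/-- Parts of the new graph. -/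
def npart {ι : Type} : NV P i j a ι → α
  | Sum.inl _ => i
  | Sum.inr (Sum.inl _) => j
  | Sum.inr (Sum.inr z) => P.part z.1

theorem npart_emb {ι : Type} (L : Line (Alph P i j a) ι) (x : P.V) :
    npart (emb P i j a L x) = P.part x := by
  by_cases h : P.part x = i
  · rw [emb_i L h, h]
    rfl
  · by_cases h' : P.part x = j
    · have hij : i ≠ j := by
        rintro rfl
        exact h h'
      rw [emb_j hij L h', h']
      rfl
    · rw [emb_z L h h']
      rfl

theorem emb_inj {ι : Type} (hij : i ≠ j) (L : Line (Alph P i j a) ι) :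
    Function.Injective (emb P i j a L) := by
  intro x y hxy
  have hp : P.part x = P.part y := by rw [← npart_emb L x, hxy, npart_emb]
  obtain ⟨m, hm⟩ := L.proper
  by_cases h : P.part x = i
  · rw [emb_i L h, emb_i L (hp ▸ h)] at hxy
    have := congrFun (Sum.inl_injective hxy) m
    simpa [hm] using this
  · by_cases h' : P.part x = j
    · rw [emb_j hij L h', emb_j hij L (hp ▸ h')] at hxy
      have := congrFun (Sum.inl_injective (Sum.inr_injective hxy)) m
      simpa [hm] using this
    · rw [emb_z L h h', emb_z L (hp ▸ h) (hp ▸ h')] at hxy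
      exact congrArg Prod.fst (Sum.inr_injective (Sum.inr_injective hxy))

/-- Edges of the new graph: the images of the edges of `P` along all lines. -/
def nE {ι : Type} (b : Fin r) (u v : NV P i j a ι) : Prop :=
  ∃ (L : Line (Alph P i j a) ι) (x y : P.V), P.E b x y ∧ u = emb P i j a L x ∧
    v = emb P i j a L y

theorem claimW_aux {ι : Type} (hij : i ≠ j) (L L' : Line (Alph P i j a) ι) {b : Fin r}
    {x y x' y' : P.V} (hx : P.part x = i) (hy : P.part y = j) (hE : P.E b x' y')
    (h1 : emb P i j a L x = emb P i j a L' x') (h2 : emb P i j a L y = emb P i j a L' y') :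
    P.E b x y := by
  have hx' : P.part x' = i := by rw [← npart_emb L' x', ← h1, npart_emb, hx]
  have hy' : P.part y' = j := by rw [← npart_emb L' y', ← h2, npart_emb, hy]
  rw [emb_i L hx, emb_i L' hx'] at h1
  rw [emb_j hij L hy, emb_j hij L' hy'] at h2
  have g1 := fun m => congrFun (Sum.inl_injective h1) m
  have g2 := fun m => congrFun (Sum.inl_injective (Sum.inr_injective h2)) m
  obtain ⟨m, hm⟩ := L.proper
  obtain ⟨m', hm'⟩ := L'.proper
  have k1 := g1 m
  have k2 := g2 m
  rw [hm] at k1 k2
  rcases hc : L'.idxFun m with _ | e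
  · rw [hc] at k1 k2
    simp only [Option.map_none, Option.getD_none] at k1 k2
    rw [k1, k2]
    exact hE
  · rw [hc] at k1 k2
    simp only [Option.map_none, Option.getD_none, Option.map_some, Option.getD_some] at k1 k2
    have hxy : P.E a x y := by
      rw [k1, k2]
      exact e.2.2.2
    have k3 := g1 m'
    have k4 := g2 m'
    rw [hm'] at k3 k4
    rcases hc' : L.idxFun m' with _ | e'
    · rw [hc'] at k3 k4
      simp only [Option.map_none, Option.getD_none] at k3 k4
      rw [k3, k4]
      exact hE
    · rw [hc'] at k3 k4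
      simp only [Option.map_none, Option.getD_none, Option.map_some, Option.getD_some] at k3 k4
      have hxy' : P.E a x' y' := by
        rw [← k3, ← k4]
        exact e'.2.2.2
      rw [P.disj b a x' y' hE hxy']
      exact hxy

theorem claimW {ι : Type} (hij : i ≠ j) (L : Line (Alph P i j a) ι) {b : Fin r} {x y : P.V}
    (h : nE b (emb P i j a L x) (emb P i j a L y)) : P.E b x y := by
  obtain ⟨L', x', y', hE, h1, h2⟩ := h
  have hx' : P.part x' = P.part x := by rw [← npart_emb L' x', ← h1, npart_emb]
  have hy' : P.part y' = P.part y := by rw [← npart_emb L' y', ← h2, npart_emb]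
  have hne := P.partite b x' y' hE
  by_cases hx : P.part x = i
  · by_cases hy : P.part y = j
    · exact claimW_aux hij L L' hx hy hE h1 h2
    · have hyi : P.part y ≠ i := by
        intro h
        exact hne (by rw [hx', hy', hx, h])
      rw [emb_z L hyi hy, emb_z L' (hy' ▸ hyi) (hy' ▸ hy)] at h2
      have h3 := Sum.inr_injective (Sum.inr_injective h2)
      rw [Prod.mk.injEq] at h3
      have h4 : x = x' := emb_inj hij L (by rw [h1, h3.2])
      rw [h4, h3.1]
      exact hE
  · by_cases hx2 : P.part x = j
    · by_cases hy : P.part y = i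
      · exact P.symm _ _ _ (claimW_aux hij L L' hy hx2 (P.symm _ _ _ hE) h2 h1)
      · have hyj : P.part y ≠ j := by
          intro h
          exact hne (by rw [hx', hy', hx2, h])
        rw [emb_z L hy hyj, emb_z L' (hy' ▸ hy) (hy' ▸ hyj)] at h2
        have h3 := Sum.inr_injective (Sum.inr_injective h2)
        rw [Prod.mk.injEq] at h3
        have h4 : x = x' := emb_inj hij L (by rw [h1, h3.2])
        rw [h4, h3.1]
        exact hE
    · rw [emb_z L hx hx2, emb_z L' (hx' ▸ hx) (hx' ▸ hx2)] at h1
      have h3 := Sum.inr_injective (Sum.inr_injective h1)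
      rw [Prod.mk.injEq] at h3
      have h4 : y = y' := emb_inj hij L (by rw [h2, h3.2])
      rw [h4, h3.1]
      exact hE

/-- A private vertex determines its line. -/
theorem line_unique {ι : Type} (hij : i ≠ j) {L L' : Line (Alph P i j a) ι} {z x : P.V}
    (h : Sum.inr (Sum.inr (z, L)) = emb P i j a L' x) : L' = L ∧ z = x := by
  by_cases hx : P.part x = i
  · rw [emb_i L' hx] at h
    exact absurd h (by simp)
  · by_cases hx' : P.part x = j
    · rw [emb_j hij L' hx'] at h
      exact absurd (Sum.inr_injective h) (by simp)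
    · rw [emb_z L' hx hx'] at h
      have := Sum.inr_injective (Sum.inr_injective h)
      rw [Prod.mk.injEq] at this
      exact ⟨this.2.symm, this.1⟩

end Step

/-- One step of the partite construction. -/
theorem step (K : Type) [Finite K] (P : PG r α) (i j : α) (hij : i ≠ j) (a : Fin r) :
    ∃ P' : PG r α, Arrow K P' P {(i, j, a)} ∧
      (∀ (W : Type) (H : SimpleGraph W), CC H → Lift H P' P) ∧
      (∀ pas : α → Prop, ¬ pas i → ¬ pas j → Pass pas P → Pass pas P') ∧
      ∀ R, Resp R P → Resp R P' := by
  classical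
  have := P.fin
  have hfinA : Finite (Alph P i j a) := by
    unfold Alph
    infer_instance
  obtain ⟨ι, hι, hHJ⟩ := Line.exists_mono_in_high_dimension (Alph P i j a) K
  have hfinL : Finite (Line (Alph P i j a) ι) := by
    refine Finite.of_injective (fun l : Line (Alph P i j a) ι => l.idxFun) ?_
    intro l l' h
    cases l
    cases l'
    simp only at h
    subst h
    rfl
  let P' : PG r α :=
    { V := NV P i j a ι
      fin := by
        unfold NV
        infer_instance
      E := nE
      part := npart
      symm := by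
        rintro b u v ⟨L, x, y, h, h1, h2⟩
        exact ⟨L, y, x, P.symm _ _ _ h, h2, h1⟩
      disj := by
        rintro b b' u v ⟨L, x, y, h, h1, h2⟩ h'
        rw [h1, h2] at h'
        exact P.disj _ _ _ _ h (claimW hij L h')
      partite := by
        rintro b u v ⟨L, x, y, h, h1, h2⟩
        rw [h1, h2, npart_emb, npart_emb]
        exact P.partite _ _ _ h }
  refine ⟨P', ?_, ?_, ?_, ?_⟩
  · intro κ
    obtain ⟨L, c, hL⟩ := hHJ (fun w => κ (Sum.inl (fun m => (w m).1.1))
      (Sum.inr (Sum.inl (fun m => (w m).1.2))))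
    refine ⟨emb P i j a L, emb_inj hij L, fun b x y h => ⟨L, x, y, h, rfl, rfl⟩,
      fun x => npart_emb L x, ?_⟩
    have key : ∀ x y, P.part x = i → P.part y = j → P.E a x y →
        κ (emb P i j a L x) (emb P i j a L y) = c := by
      intro x y hx hy hxy
      rw [← hL ⟨(x, y), hx, hy, hxy⟩, emb_i L hx, emb_j hij L hy]
      congr 2
      · funext m
        change _ = ((L.idxFun m).getD ⟨(x, y), hx, hy, hxy⟩).1.1
        rcases L.idxFun m with _ | e <;> rfl
      · congr 1
        funext m
        change _ = ((L.idxFun m).getD ⟨(x, y), hx, hy, hxy⟩).1.2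
        rcases L.idxFun m with _ | e <;> rfl
    intro t ht x y x' y' h1 h2 h3 h4 h5 h6
    rw [Set.mem_singleton_iff] at ht
    subst ht
    rw [key x y h1 h2 h3, key x' y' h4 h5 h6]
  · intro W H hH f hf
    -- the vertices outside the two parts lie in one line
    have hpar : ∀ x y, H.Adj x y → npart (f x) ≠ npart (f y) := by
      intro x y hxy
      obtain ⟨b, hb⟩ := hf x y hxy
      exact P'.partite _ _ _ hb
    have hz : ∀ x, ¬ npart (f x) = i → ¬ npart (f x) = j →
        ∃ z L, f x = Sum.inr (Sum.inr (z, L)) := by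
      intro x h1 h2
      rcases hx : f x with u | u | ⟨z, L⟩
      · rw [hx] at h1
        exact absurd rfl h1
      · rw [hx] at h2
        exact absurd rfl h2
      · exact ⟨z, L, rfl⟩
    have hI : ∀ k : α, ∀ x y, npart (f x) = k → npart (f y) = k → ¬ H.Adj x y := by
      intro k x y hx hy hxy
      exact hpar x y hxy (hx.trans hy.symm)
    obtain ⟨⟨x0, hx0, hx0'⟩, hconn⟩ := hH (fun x => npart (f x) = i) (fun x => npart (f x) = j)
      (hI i) (hI j)
    obtain ⟨z0, L, hz0⟩ := hz x0 hx0 hx0'
    have hall := hconn (fun x => ∃ z, f x = Sum.inr (Sum.inr (z, L)))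
      ⟨x0, hx0, hx0', z0, hz0⟩ (by
        intro x y _ _ hy hy' hxy ⟨z, hzx⟩
        obtain ⟨b, L', x', y', _, h1, h2⟩ := hf x y hxy
        rw [hzx] at h1
        have e1 := (line_unique hij h1).1
        subst e1
        obtain ⟨z', L'', hz'⟩ := hz y hy hy'
        refine ⟨z', ?_⟩
        rw [hz'] at h2
        rw [hz', (line_unique hij h2).1])
    have hL : ∀ x, ∃ x' : P.V, f x = emb P i j a L x' := by
      intro x
      by_cases hx : ¬ npart (f x) = i ∧ ¬ npart (f x) = j
      · obtain ⟨z, hzx⟩ := hall x hx.1 hx.2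
        -- x has a neighbour, so it is the image of a vertex
        have hnb : ∃ y, H.Adj x y := by
          by_contra hcon
          push Not at hcon
          obtain ⟨_, hc2⟩ := hH (fun _ => False) (fun _ => False) (fun _ _ h => h.elim)
            (fun _ _ h => h.elim)
          have hc3 := hc2 (fun y => y = x) ⟨x, fun h => h, fun h => h, rfl⟩
            (fun u v _ _ _ _ huv hu => absurd (hu ▸ huv) (hcon v))
          obtain ⟨⟨w, hw1, _⟩, _⟩ := hH (fun _ => True) (fun _ => False) (by
            intro u v _ _ huv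
            have e1 := hc3 u (fun h => h) (fun h => h)
            have e2 := hc3 v (fun h => h) (fun h => h)
            rw [e1, e2] at huv
            exact huv.ne rfl) (fun _ _ h => h.elim)
          exact hw1 trivial
        obtain ⟨y, hxy⟩ := hnb
        obtain ⟨b, L', x', y', _, h1, h2⟩ := hf x y hxy
        refine ⟨x', ?_⟩
        have h1' := h1
        rw [hzx] at h1'
        rw [h1, (line_unique hij h1').1]
      · -- a neighbour outside the two parts
        have hnb : ∃ y, H.Adj x y ∧ ¬ npart (f y) = i ∧ ¬ npart (f y) = j := by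
          by_contra hcon
          push Not at hcon
          have hk : ∃ k l : α, npart (f x) = k ∧ ((k = i ∧ l = j) ∨ (k = j ∧ l = i)) := by
            by_cases h1 : npart (f x) = i
            · exact ⟨i, j, h1, Or.inl ⟨rfl, rfl⟩⟩
            · exact ⟨j, i, by
                by_contra h2
                exact hx ⟨h1, h2⟩, Or.inr ⟨rfl, rfl⟩⟩
          obtain ⟨k, l, hk, hkl⟩ := hk
          have hnb : ∀ y, H.Adj x y → npart (f y) = l := by
            intro y hxy
            have h1 := hpar x y hxy
            rw [hk] at h1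
            have h2 := hcon y hxy
            rcases hkl with ⟨rfl, rfl⟩ | ⟨rfl, rfl⟩
            · exact h2 (Ne.symm h1)
            · by_contra h3
              exact h1 (h2 h3).symm
          obtain ⟨_, hc2⟩ := hH (fun y => npart (f y) = k ∧ y ≠ x) (fun y => npart (f y) = l)
            (fun u v hu hv => hI k u v hu.1 hv.1) (hI l)
          have hkl' : k ≠ l := by
            rcases hkl with ⟨rfl, rfl⟩ | ⟨rfl, rfl⟩
            · exact hij
            · exact hij.symm
          have hxl : ¬ npart (f x) = l := by
            rw [hk]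
            exact hkl'
          have hc3 := hc2 (fun y => y = x) ⟨x, fun h => h.2 rfl, hxl, rfl⟩
            (fun u v _ _ _ hv huv hu => absurd (hnb v (hu ▸ huv)) hv)
          have hx0k : ¬ npart (f x0) = k := by
            rcases hkl with ⟨rfl, rfl⟩ | ⟨rfl, rfl⟩
            · exact hx0
            · exact hx0'
          have hx0l : ¬ npart (f x0) = l := by
            rcases hkl with ⟨rfl, rfl⟩ | ⟨rfl, rfl⟩
            · exact hx0'
            · exact hx0
          have := hc3 x0 (fun h => hx0k h.1) hx0l
          rw [this] at hx0k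
          exact hx0k hk
        obtain ⟨y, hxy, hy1, hy2⟩ := hnb
        obtain ⟨z, hzy⟩ := hall y hy1 hy2
        obtain ⟨b, L', x', y', _, h1, h2⟩ := hf x y hxy
        rw [hzy] at h2
        refine ⟨x', ?_⟩
        rw [h1, (line_unique hij h2).1]
    choose g hg using hL
    refine ⟨g, fun b x y _ h => ?_, fun x y h => ?_, fun x => ?_⟩
    · rw [hg x, hg y] at h
      exact claimW hij L h
    · rw [hg x, hg y, h]
    · rw [hg x]
      exact (npart_emb L (g x)).symm
  · rintro pas hpi hpj ⟨κ, id, h1, h2⟩
    have hz : ∀ u : NV P i j a ι, pas (npart u) → ∃ z L, u = Sum.inr (Sum.inr (z, L)) := by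
      intro u hu
      rcases u with u | u | ⟨z, L⟩
      · exact absurd hu hpi
      · exact absurd hu hpj
      · exact ⟨z, L, rfl⟩
    refine ⟨Option (κ × Line (Alph P i j a) ι), fun u => match u with
      | Sum.inl _ => none
      | Sum.inr (Sum.inl _) => none
      | Sum.inr (Sum.inr (z, L)) => some (id z, L), ?_, ?_⟩
    · rintro b u v ⟨L, x, y, hE, hu, hv⟩ hpu hpv
      obtain ⟨z, L1, hz1⟩ := hz u hpu
      obtain ⟨z', L2, hz2⟩ := hz v hpv
      have e1 : Sum.inr (Sum.inr (z, L1)) = emb P i j a L x := by rw [← hz1, hu]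
      have e2 : Sum.inr (Sum.inr (z', L2)) = emb P i j a L y := by rw [← hz2, hv]
      obtain ⟨f1, f2⟩ := line_unique hij e1
      obtain ⟨f3, f4⟩ := line_unique hij e2
      subst hz1 hz2
      have hp1 : pas (P.part x) := by
        rw [← f2]
        exact hpu
      have hp2 : pas (P.part y) := by
        rw [← f4]
        exact hpv
      have := h1 b x y hE hp1 hp2
      simp only
      rw [f2, f4, this, ← f1, ← f3]
    · intro u v hpu hpar hid
      obtain ⟨z, L1, hz1⟩ := hz u hpu
      have hpv : pas (npart v) := by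
        have : npart u = npart v := hpar
        rw [← this]
        exact hpu
      obtain ⟨z', L2, hz2⟩ := hz v hpv
      subst hz1 hz2
      simp only [Option.some.injEq, Prod.mk.injEq] at hid
      rw [h2 z z' hpu hpar hid.1, hid.2]
  · rintro R hR b u v ⟨L, x, y, hE, hu, hv⟩
    have := hR b x y hE
    show R b (npart u) (npart v)
    rw [hu, hv, npart_emb, npart_emb]
    exact this

theorem Lift.trans {W : Type} {H : SimpleGraph W} {P1 P2 P3 : PG r α} (h : Lift H P1 P2)
    (h' : Lift H P2 P3) : Lift H P1 P3 := by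
  intro f hf
  obtain ⟨g, hg1, hg2, hg3⟩ := h f hf
  obtain ⟨g', hg1', hg2', hg3'⟩ := h' g (fun x y hxy => by
    obtain ⟨b, hb⟩ := hf x y hxy
    exact ⟨b, hg1 b x y hxy hb⟩)
  exact ⟨g', fun b x y hxy hb => hg1' b x y hxy (hg1 b x y hxy hb),
    fun x y hxy => hg2 x y (hg2' x y hxy), fun x => (hg3' x).trans (hg3 x)⟩

theorem Lift.refl {W : Type} (H : SimpleGraph W) (P : PG r α) : Lift H P P :=
  fun f _ => ⟨f, fun _ _ _ _ h => h, fun _ _ h => h, fun _ => rfl⟩

/-- The iteration. -/
theorem iterate (K : Type) [Finite K] (P : PG r α) (T : Finset (α × α × Fin r))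
    (hT : ∀ t ∈ T, t.1 ≠ t.2.1) :
    ∃ P' : PG r α, Arrow K P' P T ∧
      (∀ (W : Type) (H : SimpleGraph W), CC H → Lift H P' P) ∧
      (∀ pas : α → Prop, (∀ t ∈ T, ¬ pas t.1 ∧ ¬ pas t.2.1) → Pass pas P → Pass pas P') ∧
      ∀ R, Resp R P → Resp R P' := by
  classical
  induction T using Finset.induction_on with
  | empty =>
    refine ⟨P, fun κ => ⟨fun x => x, fun _ _ h => h, fun _ _ _ h => h, fun _ => rfl, ?_⟩,
      fun W H _ => Lift.refl H P, fun _ _ h => h, fun _ h => h⟩
    intro t ht
    simp at ht
  | insert t T _ ih =>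
    obtain ⟨P1, hA1, hC1, hP1, hR1⟩ := ih (fun t ht => hT t (Finset.mem_insert_of_mem ht))
    obtain ⟨P2, hA2, hC2, hP2, hR2⟩ := step K P1 t.1 t.2.1
      (hT t (Finset.mem_insert_self _ _)) t.2.2
    refine ⟨P2, ?_, fun W H hH => (hC2 W H hH).trans (hC1 W H hH),
      fun pas hpas hp => hP2 pas (hpas t (Finset.mem_insert_self _ _)).1
        (hpas t (Finset.mem_insert_self _ _)).2
        (hP1 pas (fun t ht => hpas t (Finset.mem_insert_of_mem ht)) hp),
      fun R hR => hR2 R (hR1 R hR)⟩
    intro κ
    obtain ⟨e1, h1, h2, h3, h4⟩ := hA2 κ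
    obtain ⟨e2, g1, g2, g3, g4⟩ := hA1 (fun x y => κ (e1 x) (e1 y))
    refine ⟨fun x => e1 (e2 x), fun x y h => g1 (h1 h), fun b x y h => h2 _ _ _ (g2 _ _ _ h),
      fun x => by rw [h3, g3], ?_⟩
    intro t' ht' x y x' y' k1 k2 k3 k4 k5 k6
    rw [Finset.coe_insert, Set.mem_insert_iff] at ht'
    rcases ht' with rfl | ht'
    · exact h4 _ rfl _ _ _ _ (by rw [g3, k1]) (by rw [g3, k2]) (g2 _ _ _ k3)
        (by rw [g3, k4]) (by rw [g3, k5]) (g2 _ _ _ k6)
    · exact g4 t' ht' x y x' y' k1 k2 k3 k4 k5 k6

end Pool.Agent.Lib.MP_3240be_co.H36.Chrom
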