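import Mathlib
import Pool.Agent.Lib.MP_3240be_co.H36.Chrom.Partite
import Pool.Agent.Lib.MP_3240be_co.H36.Ramsey

set_option autoImplicit false

/-!
# A Nesetril-Rodl theorem for edge-coloured graphs with passengers
-/

namespace Pool.Agent.Lib.MP_3240be_co.H36.Chrom

open Filter

/-- The finite form of Ramsey's theorem. -/
theorem ramsey_fin (C : Type) [Finite C] (m : ℕ) :
    ∃ R : ℕ, ∀ χ : Finset ℕ → C, ∃ S : Finset ℕ, S ⊆ Finset.range R ∧ S.card = m ∧
      ∀ K K' : Finset ℕ, K ⊆ S → K' ⊆ S → K.card = K'.card → χ K = χ K' := by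
  classical
  by_contra hcon
  push Not at hcon
  choose χ hχ using hcon
  choose lim hlim using fun K : Finset ℕ =>
    Pool.Agent.Lib.MP_3240be_co.H36.ulim (hyperfilter ℕ) (fun R => χ R K)
  obtain ⟨S, hS, hS'⟩ := Pool.Agent.Lib.MP_3240be_co.H36.ramsey lim m
  have h1 : ∀ᶠ R in ((hyperfilter ℕ : Ultrafilter ℕ) : Filter ℕ), ∀ K ∈ S.powerset,
      χ R K = lim K := by
    rw [Filter.eventually_all_finset]
    intro K _
    exact hlim K
  have h2 : ∀ᶠ R in ((hyperfilter ℕ : Ultrafilter ℕ) : Filter ℕ), S.sup id + 1 ≤ R :=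
    Nat.hyperfilter_le_atTop (eventually_ge_atTop _)
  obtain ⟨R, hR1, hR2⟩ := (h1.and h2).exists
  obtain ⟨K, K', hK, hK', hc, hne⟩ := hχ R S (by
    intro x hx
    rw [Finset.mem_range]
    have : x ≤ S.sup id := Finset.le_sup (f := id) hx
    omega) hS
  apply hne
  rw [hR1 K (Finset.mem_powerset.2 hK), hR1 K' (Finset.mem_powerset.2 hK')]
  exact hS' K K' hK hK' hc

/-- A Nesetril-Rodl theorem for edge-coloured graphs with passengers: the vertices of the pattern
are the active ones (`Fin n`) and the passengers (`Q`). -/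
theorem canonical {r n : ℕ} {Q : Type} [Finite Q] (K : Type) [Finite K] [Nonempty K]
    (E : Fin r → (Fin n ⊕ Q) → (Fin n ⊕ Q) → Prop) (symm : ∀ b x y, E b x y → E b y x)
    (irrefl : ∀ b x, ¬ E b x x) (disj : ∀ a b x y, E a x y → E b x y → a = b) :
    ∃ (V : Type) (_ : Finite V) (E' : Fin r → V → V → Prop) (part : V → Option Q),
      (∀ b x y, E' b x y → E' b y x) ∧ (∀ b x, ¬ E' b x x) ∧
      (∀ a b x y, E' a x y → E' b x y → a = b) ∧
      (∀ (W : Type) (H : SimpleGraph W), CC H → ∀ f : W → V,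
        (∀ x y, H.Adj x y → ∃ b, E' b (f x) (f y)) → ∃ g : W → Fin n ⊕ Q,
          (∀ b x y, H.Adj x y → E' b (f x) (f y) → E b (g x) (g y)) ∧
          (∀ x y, g x = g y → f x = f y) ∧
          ∀ x q, g x = Sum.inr q → part (f x) = some q) ∧
      (∃ (ι : Type) (id : V → ι),
        (∀ b x y q q', E' b x y → part x = some q → part y = some q' → id x = id y) ∧
        ∀ x y q, part x = some q → part y = some q → id x = id y → x = y) ∧
      (∀ b x y q q', E' b x y → part x = some q → part y = some q' →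
        E b (Sum.inr q) (Sum.inr q')) ∧
      (∀ b x y q, E' b x y → part x = some q → part y = none → ∃ d, E b (Sum.inr q) (Sum.inl d)) ∧
      ∀ κ : V → V → K, (∀ x y, κ x y = κ y x) → ∃ e : Fin n ⊕ Q → V, Function.Injective e ∧
        (∀ b x y, E b x y → E' b (e x) (e y)) ∧
        ∃ φ : Fin r → K, ∀ b x y, E b (Sum.inl x) (Sum.inl y) →
          κ (e (Sum.inl x)) (e (Sum.inl y)) = φ b := by
  classical
  obtain ⟨N, hN⟩ := ramsey_fin (Fin r → K) n
  have hQ := Fintype.ofFinite Q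
  let P : PG r (Fin N ⊕ Q) :=
    { V := {σ : Fin n → Fin N // StrictMono σ} × (Fin n ⊕ Q)
      fin := inferInstance
      E := fun b u v => u.1 = v.1 ∧ E b u.2 v.2
      part := fun u => Sum.map u.1.1 id u.2
      symm := fun b u v h => ⟨h.1.symm, symm _ _ _ h.2⟩
      disj := fun a b u v h h' => disj a b _ _ h.2 h'.2
      partite := by
        rintro b ⟨σ, x⟩ ⟨σ', y⟩ ⟨h1, h2⟩ h3
        simp only at h1 h2 h3
        subst h1
        have := Sum.map_injective.2 ⟨σ.2.injective, Function.injective_id⟩ h3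
        rw [this] at h2
        exact irrefl _ _ h2 }
  obtain ⟨P', hA, hC, hPs, hR⟩ := iterate K P
    ((Finset.univ : Finset (Fin N × Fin N × Fin r)).image
      (fun t => ((Sum.inl t.1 : Fin N ⊕ Q), (Sum.inl t.2.1 : Fin N ⊕ Q), t.2.2)) |>.filter
      (fun t => t.1 ≠ t.2.1))
    (fun t ht => (Finset.mem_filter.1 ht).2)
  let pas : Fin N ⊕ Q → Prop := fun z => ∃ q, z = Sum.inr q
  have hpas : Pass pas P' := by
    refine hPs pas ?_ ?_
    · intro t ht
      obtain ⟨s, _, rfl⟩ := Finset.mem_image.1 (Finset.mem_filter.1 ht).1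
      exact ⟨fun ⟨q, hq⟩ => by simp at hq, fun ⟨q, hq⟩ => by simp at hq⟩
    · refine ⟨_, fun u : P.V => u.1, fun b x y h _ _ => h.1, ?_⟩
      rintro ⟨σ, x⟩ ⟨σ', y⟩ ⟨q, hq⟩ h1 h2
      simp only at h2
      subst h2
      have := Sum.map_injective.2 ⟨σ.2.injective, Function.injective_id⟩ h1
      exact congrArg (Prod.mk σ) this
  have hres := hR (fun b z z' => (∀ q q', z = Sum.inr q → z' = Sum.inr q' →
      E b (Sum.inr q) (Sum.inr q')) ∧ ∀ q d, z = Sum.inr q → z' = Sum.inl d →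
      ∃ d, E b (Sum.inr q) (Sum.inl d)) (by
    rintro b ⟨σ, x⟩ ⟨σ', y⟩ ⟨h1, h2⟩
    refine ⟨?_, ?_⟩
    · intro q q' e1 e2
      rcases x with x | x
      · simp [P] at e1
      rcases y with y | y
      · simp [P] at e2
      simp only [P, Sum.map_inr, id_eq, Sum.inr.injEq] at e1 e2
      subst e1 e2
      exact h2
    · intro q d e1 e2
      rcases x with x | x
      · simp [P] at e1
      rcases y with y | y
      · simp only [P, Sum.map_inr, id_eq, Sum.inr.injEq] at e1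
        subst e1
        exact ⟨y, h2⟩
      · simp [P] at e2)
  let pt : P'.V → Option Q := fun v => match P'.part v with
    | Sum.inl _ => none
    | Sum.inr q => some q
  have hpt1 : ∀ v q, pt v = some q ↔ P'.part v = Sum.inr q := by
    intro v q
    simp only [pt]
    rcases P'.part v with d | q' <;> simp
  have hpt2 : ∀ v, pt v = none → ∃ d, P'.part v = Sum.inl d := by
    intro v
    simp only [pt]
    rcases P'.part v with d | q' <;> simp
  refine ⟨P'.V, P'.fin, P'.E, pt, P'.symm, fun b x h => P'.partite b x x h rfl, P'.disj,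
    ?_, ?_, ?_, ?_, ?_⟩
  · intro W H hH f hf
    obtain ⟨g, hg1, hg2, hg3⟩ := hC W H hH f hf
    have h0 : ∀ x y, (g x).1 = (g y).1 := by
      intro x y
      obtain ⟨_, hc2⟩ := hH (fun _ => False) (fun _ => False) (fun _ _ h => h.elim)
        (fun _ _ h => h.elim)
      refine (hc2 (fun z => (g x).1 = (g z).1) ⟨x, fun h => h, fun h => h, rfl⟩ ?_ y
        (fun h => h) (fun h => h))
      intro u v _ _ _ _ huv hu
      obtain ⟨b, hb⟩ := hf u v huv
      exact Eq.trans hu (hg1 b u v huv hb).1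
    refine ⟨fun x => (g x).2, fun b x y hxy hb => (hg1 b x y hxy hb).2, ?_, ?_⟩
    · intro x y hxy
      exact hg2 x y (Prod.ext (h0 x y) hxy)
    · intro x q hx
      rw [hpt1, ← hg3 x]
      have hx' : (g x).2 = Sum.inr q := hx
      show Sum.map _ _ (g x).2 = _
      rw [hx']
      rfl
  · obtain ⟨ι, id, h1, h2⟩ := hpas
    refine ⟨ι, id, ?_, ?_⟩
    · intro b x y q q' h hx hy
      exact h1 b x y h ⟨q, (hpt1 _ _).1 hx⟩ ⟨q', (hpt1 _ _).1 hy⟩
    · intro x y q hx hy hid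
      exact h2 x y ⟨q, (hpt1 _ _).1 hx⟩ (((hpt1 _ _).1 hx).trans ((hpt1 _ _).1 hy).symm) hid
  · intro b x y q q' h hx hy
    exact (hres b x y h).1 q q' ((hpt1 _ _).1 hx) ((hpt1 _ _).1 hy)
  · intro b x y q h hx hy
    obtain ⟨d, hd⟩ := hpt2 y hy
    exact (hres b x y h).2 q d ((hpt1 _ _).1 hx) hd
  · intro κ hκ
    obtain ⟨e, he1, he2, he3, he4⟩ := hA κ
    -- active vertices
    let ac : {σ : Fin n → Fin N // StrictMono σ} → Fin n → P.V := fun σ x => (σ, Sum.inl x)
    have hconst : ∀ (b : Fin r) (σ σ' : {σ : Fin n → Fin N // StrictMono σ}) (x y x' y' : Fin n),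
        σ.1 x = σ'.1 x' → σ.1 y = σ'.1 y' →
        E b (Sum.inl x) (Sum.inl y) → E b (Sum.inl x') (Sum.inl y') →
        κ (e (ac σ x)) (e (ac σ y)) = κ (e (ac σ' x')) (e (ac σ' y')) := by
      intro b σ σ' x y x' y' h1 h2 h3 h4
      have hne : σ.1 x ≠ σ.1 y := by
        intro h
        have := σ.2.injective h
        rw [this] at h3
        exact irrefl _ _ h3
      refine he4 (Sum.inl (σ.1 x), Sum.inl (σ.1 y), b) ?_ (ac σ x) (ac σ y) (ac σ' x') (ac σ' y')
        rfl rfl ⟨rfl, h3⟩ ?_ ?_ ⟨rfl, h4⟩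
      · rw [Finset.mem_coe, Finset.mem_filter]
        refine ⟨Finset.mem_image.2 ⟨(σ.1 x, σ.1 y, b), Finset.mem_univ _, rfl⟩, ?_⟩
        simp only [ne_eq, Sum.inl.injEq]
        exact hne
      · show Sum.inl (σ'.1 x') = _
        rw [h1]
      · show Sum.inl (σ'.1 y') = _
        rw [h2]
    let Pr : Finset ℕ → Fin r → {σ : Fin n → Fin N // StrictMono σ} × Fin n × Fin n → Prop :=
      fun S b p => (p.1.1 p.2.1 : ℕ) < (p.1.1 p.2.2 : ℕ) ∧
        S = {(p.1.1 p.2.1 : ℕ), (p.1.1 p.2.2 : ℕ)} ∧ E b (Sum.inl p.2.1) (Sum.inl p.2.2)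
    let f : Finset ℕ → Fin r → K := fun S b =>
      if h : ∃ p, Pr S b p then κ (e (ac h.choose.1 h.choose.2.1)) (e (ac h.choose.1 h.choose.2.2))
      else Classical.arbitrary K
    have hf : ∀ (b : Fin r) (σ : {σ : Fin n → Fin N // StrictMono σ}) (x y : Fin n),
        (σ.1 x : ℕ) < (σ.1 y : ℕ) → E b (Sum.inl x) (Sum.inl y) →
        f {(σ.1 x : ℕ), (σ.1 y : ℕ)} b = κ (e (ac σ x)) (e (ac σ y)) := by
      intro b σ x y h1 h2
      have hex : ∃ p, Pr {(σ.1 x : ℕ), (σ.1 y : ℕ)} b p := ⟨(σ, x, y), h1, rfl, h2⟩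
      have hs := hex.choose_spec
      simp only [f, dif_pos hex]
      set p := hex.choose with hp
      obtain ⟨g1, g2, g3⟩ := hs
      have g4 : (p.1.1 p.2.1 : ℕ) = σ.1 x ∧ (p.1.1 p.2.2 : ℕ) = σ.1 y := by
        have m1 : (p.1.1 p.2.1 : ℕ) ∈ ({(σ.1 x : ℕ), (σ.1 y : ℕ)} : Finset ℕ) := by
          rw [g2]; simp
        have m2 : (p.1.1 p.2.2 : ℕ) ∈ ({(σ.1 x : ℕ), (σ.1 y : ℕ)} : Finset ℕ) := by
          rw [g2]; simp
        rw [Finset.mem_insert, Finset.mem_singleton] at m1 m2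
        omega
      exact hconst b p.1 σ p.2.1 p.2.2 x y (Fin.ext g4.1) (Fin.ext g4.2) g3 h2
    obtain ⟨S, hS1, hS2, hS3⟩ := hN f
    have hφ : ∃ φ : Fin r → K, ∀ Q : Finset ℕ, Q ⊆ S → Q.card = 2 → f Q = φ := by
      by_cases h : ∃ Q : Finset ℕ, Q ⊆ S ∧ Q.card = 2
      · obtain ⟨Q, hQ1, hQ2⟩ := h
        exact ⟨f Q, fun Q' h1 h2 => hS3 Q' Q h1 hQ1 (h2.trans hQ2.symm)⟩
      · exact ⟨fun _ => Classical.arbitrary K, fun Q h1 h2 => absurd ⟨Q, h1, h2⟩ h⟩
    obtain ⟨φ, hφ⟩ := hφ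
    have hlt : ∀ x : Fin n, S.orderEmbOfFin hS2 x < N := fun x =>
      Finset.mem_range.1 (hS1 (Finset.orderEmbOfFin_mem S hS2 x))
    let σ : {σ : Fin n → Fin N // StrictMono σ} :=
      ⟨fun x => ⟨S.orderEmbOfFin hS2 x, hlt x⟩, fun x y hxy => by
        rw [Fin.mk_lt_mk]
        exact (S.orderEmbOfFin hS2).strictMono hxy⟩
    have key : ∀ b x y, E b (Sum.inl x) (Sum.inl y) → x < y →
        κ (e (ac σ x)) (e (ac σ y)) = φ b := by
      intro b x y h hxy
      have h1 : (σ.1 x : ℕ) < (σ.1 y : ℕ) := (S.orderEmbOfFin hS2).strictMono hxy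
      rw [← hf b σ x y h1 h]
      refine congrFun (hφ _ ?_ ?_) b
      · intro z hz
        rw [Finset.mem_insert, Finset.mem_singleton] at hz
        rcases hz with rfl | rfl
        · exact Finset.orderEmbOfFin_mem S hS2 x
        · exact Finset.orderEmbOfFin_mem S hS2 y
      · exact Finset.card_pair h1.ne
    refine ⟨fun x => e (σ, x), ?_, fun b x y h => he2 b _ _ ⟨rfl, h⟩, φ, ?_⟩
    · intro x y hxy
      exact congrArg Prod.snd (he1 hxy)
    · intro b x y h
      rcases lt_trichotomy x y with hxy | hxy | hxy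
      · exact key b x y h hxy
      · rw [hxy] at h
        exact absurd h (irrefl _ _)
      · rw [hκ]
        exact key b y x (symm _ _ _ h) hxy

end Pool.Agent.Lib.MP_3240be_co.H36.Chrom
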