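import Mathlib

set_option autoImplicit false

/-!
# Uniform hypergraphs of large chromatic number and large girth

The construction of Nesetril and Rodl (1979), in a form in which large girth means: every family
of at least two and at most `g` hyperedges has two leaves, i.e. members whose common points with
the other members are all equal.
-/

namespace Pool.Agent.Lib.MP_3240be_co.H36.Chrom

/-- `m` is a leaf of the family `S`: its points shared with other members are all equal. -/
def Leaf {T V M : Type} (δ : M → T → V) (S : Finset M) (m : M) : Prop :=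
  ∀ m' ∈ S, ∀ m'' ∈ S, m' ≠ m → m'' ≠ m → ∀ t t' s s', δ m t = δ m' t' → δ m s = δ m'' s' →
    δ m t = δ m s

/-- Every family of size between `2` and `g` has two leaves. -/
def Sparse {T V M : Type} (g : ℕ) (δ : M → T → V) : Prop :=
  ∀ S : Finset M, 2 ≤ S.card → S.card ≤ g →
    ∃ m ∈ S, ∃ m' ∈ S, m ≠ m' ∧ Leaf δ S m ∧ Leaf δ S m'

/-- Gluing: if the part of `S` in `C` shares at most one point with the rest and has two leaves,
then one of them is a leaf of `S`. -/
theorem glue {T V M : Type} (δ : M → T → V) (S C : Finset M)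
    (hsh : ∀ m ∈ C, ∀ m' ∈ C, ∀ l ∈ S, l ∉ C → ∀ l' ∈ S, l' ∉ C → ∀ t t' s s', δ m t = δ l t' →
      δ m' s = δ l' s' → δ m t = δ m' s)
    {m1 m2 : M} (h1 : m1 ∈ C) (h2 : m2 ∈ C) (hne : m1 ≠ m2) (hl1 : Leaf δ C m1)
    (hl2 : Leaf δ C m2) : Leaf δ S m1 ∨ Leaf δ S m2 := by
  by_contra hcon
  push Not at hcon
  obtain ⟨hn1, hn2⟩ := hcon
  -- if `m` is not a leaf of `S` it has the outside point, and another inside point
  have key : ∀ m ∈ C, Leaf δ C m → ¬ Leaf δ S m → ∃ t, (∃ l ∈ S, l ∉ C ∧ ∃ t', δ m t = δ l t') ∧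
      ∃ s, (∃ k ∈ C, k ≠ m ∧ ∃ s', δ m s = δ k s') ∧ δ m t ≠ δ m s := by
    intro m hm hl hn
    unfold Leaf at hn
    push Not at hn
    obtain ⟨m', hm', m'', hm'', hne', hne'', t, t', s, s', e1, e2, hne3⟩ := hn
    by_cases c1 : m' ∈ C
    · by_cases c2 : m'' ∈ C
      · exact absurd (hl m' c1 m'' c2 hne' hne'' t t' s s' e1 e2) hne3
      · exact ⟨s, ⟨m'', hm'', c2, s', e2⟩, t, ⟨m', c1, hne', t', e1⟩, hne3.symm⟩
    · by_cases c2 : m'' ∈ C
      · exact ⟨t, ⟨m', hm', c1, t', e1⟩, s, ⟨m'', c2, hne'', s', e2⟩, hne3⟩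
      · exact absurd (hsh m hm m hm m' hm' c1 m'' hm'' c2 t t' s s' e1 e2) hne3
  obtain ⟨t1, ⟨l1, hl1S, hl1C, t1', ht1⟩, s1, ⟨k1, hk1, hk1m, s1', hs1⟩, hd1⟩ :=
    key m1 h1 hl1 hn1
  obtain ⟨t2, ⟨l2, hl2S, hl2C, t2', ht2⟩, _⟩ := key m2 h2 hl2 hn2
  have e : δ m1 t1 = δ m2 t2 := hsh m1 h1 m2 h2 l1 hl1S hl1C l2 hl2S hl2C t1 t1' t2 t2' ht1 ht2
  exact hd1 (hl1 m2 h2 k1 hk1 hne.symm hk1m t1 t2 s1 s1' e hs1)

section Amalgam

variable {T V M Z : Type} (δ : M → T → V) (part : V → Z) (z : Z) {VB MB : Type}
  (β : MB → {v : V // part v = z} → VB)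

/-- The copy of the old vertex set that belongs to `B`. -/
noncomputable def cp (B : MB) (v : V) : VB ⊕ (V × MB) := by
  classical
  exact if h : part v = z then Sum.inl (β B ⟨v, h⟩) else Sum.inr (v, B)

theorem cp_inj (hβ : ∀ B, Function.Injective (β B)) (B : MB) :
    Function.Injective (cp part z β B) := by
  intro v v' h
  unfold cp at h
  split_ifs at h with h1 h2
  · exact congrArg Subtype.val (hβ B (Sum.inl_injective h))
  · exact congrArg Prod.fst (Sum.inr_injective h)

theorem cp_ne {B B' : MB} (hB : B ≠ B') {v v' : V} (h : cp part z β B v = cp part z β B' v') :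
    ∃ (h1 : part v = z) (h2 : part v' = z), β B ⟨v, h1⟩ = β B' ⟨v', h2⟩ := by
  unfold cp at h
  split_ifs at h with h1 h2 h3
  · exact ⟨h1, h2, Sum.inl_injective h⟩
  · exact absurd (congrArg Prod.snd (Sum.inr_injective h)) hB

/-- The hyperedges of the amalgam. -/
noncomputable def am : M × MB → T → VB ⊕ (V × MB) := fun p t => cp part z β p.2 (δ p.1 t)

open Classical in
theorem am_leaf (hβ : ∀ B, Function.Injective (β B)) (B : MB) (S : Finset (M × MB))
    (hS : ∀ p ∈ S, p.2 = B) (m : M) (h : Leaf δ (S.image Prod.fst) m) :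
    Leaf (am δ part z β) S (m, B) := by
  classical
  rintro ⟨m', B'⟩ hm' ⟨m'', B''⟩ hm'' hne' hne'' t t' s s' e1 e2
  have b1 : B' = B := hS _ hm'
  have b2 : B'' = B := hS _ hm''
  subst b1 b2
  have i1 := cp_inj part z β hβ B'' e1
  have i2 := cp_inj part z β hβ B'' e2
  have := h m' (Finset.mem_image.2 ⟨_, hm', rfl⟩) m'' (Finset.mem_image.2 ⟨_, hm'', rfl⟩)
    (fun e => hne' (by rw [e])) (fun e => hne'' (by rw [e])) t t' s s' i1 i2
  show cp part z β B'' (δ m t) = cp part z β B'' (δ m s)
  rw [this]

theorem am_sparse {g : ℕ} (hg : 1 ≤ g) (hδ : ∀ m, Function.Injective (fun t => part (δ m t)))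
    (hδs : Sparse (g + 1) δ) (hβ : ∀ B, Function.Injective (β B)) (hβs : Sparse g β) :
    Sparse (g + 1) (am δ part z β) := by
  classical
  -- induction on the size of the family
  have main : ∀ n : ℕ, ∀ S : Finset (M × MB), S.card = n → 2 ≤ n → n ≤ g + 1 →
      ∃ m ∈ S, ∃ m' ∈ S, m ≠ m' ∧ Leaf (am δ part z β) S m ∧ Leaf (am δ part z β) S m' := by
    intro n
    induction n using Nat.strong_induction_on with
    | _ n ih =>
      intro S hSn hn2 hng
      -- a family inside one copy
      have single : ∀ B : MB, ∀ C ⊆ S, (∀ p ∈ C, p.2 = B) → 2 ≤ C.card →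
          ∃ m ∈ C, ∃ m' ∈ C, m ≠ m' ∧ Leaf (am δ part z β) C m ∧ Leaf (am δ part z β) C m' := by
        intro B C hC hCB hC2
        have hinj : Set.InjOn Prod.fst (C : Set (M × MB)) := by
          intro p hp q hq hpq
          exact Prod.ext hpq ((hCB p hp).trans (hCB q hq).symm)
        have hcard : (C.image Prod.fst).card = C.card := Finset.card_image_of_injOn hinj
        have hCS := Finset.card_le_card hC
        obtain ⟨m, hm, m', hm', hne, hl, hl'⟩ := hδs (C.image Prod.fst) (by omega) (by omega)
        have hmem : ∀ k ∈ C.image Prod.fst, (k, B) ∈ C := by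
          intro k hk
          obtain ⟨⟨k', B'⟩, hp, rfl⟩ := Finset.mem_image.1 hk
          have b1 : B' = B := hCB _ hp
          subst b1
          exact hp
        exact ⟨(m, B), hmem m hm, (m', B), hmem m' hm', fun h => hne (congrArg Prod.fst h),
          am_leaf δ part z β hβ B C hCB m hl, am_leaf δ part z β hβ B C hCB m' hl'⟩
      by_cases hone : ∃ B, ∀ p ∈ S, p.2 = B
      · obtain ⟨B, hB⟩ := hone
        exact single B S (Finset.Subset.refl _) hB (by omega)
      push Not at hone
      let F : MB → Finset (M × MB) := fun B => S.filter (fun p => p.2 = B)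
      by_cases hsing : ∃ e ∈ S, F e.2 = {e}
      · obtain ⟨e, heS, he⟩ := hsing
        have hother : ∀ p ∈ S, p ≠ e → p.2 ≠ e.2 := by
          intro p hp hpe heq
          have : p ∈ F e.2 := Finset.mem_filter.2 ⟨hp, heq⟩
          rw [he, Finset.mem_singleton] at this
          exact hpe this
        have hleaf : Leaf (am δ part z β) S e := by
          intro p hp q hq hpe hqe t t' s s' e1 e2
          obtain ⟨a1, _, _⟩ := cp_ne part z β (hother p hp hpe).symm e1
          obtain ⟨a2, _, _⟩ := cp_ne part z β (hother q hq hqe).symm e2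
          have : t = s := hδ e.1 (a1.trans a2.symm)
          rw [this]
        -- the rest
        have hcard : (S.erase e).card = n - 1 := by
          rw [Finset.card_erase_of_mem heS, hSn]
        have hsh : ∀ m ∈ S.erase e, ∀ m' ∈ S.erase e, ∀ l ∈ S, l ∉ S.erase e → ∀ l' ∈ S,
            l' ∉ S.erase e → ∀ t t' s s', am δ part z β m t = am δ part z β l t' →
            am δ part z β m' s = am δ part z β l' s' →
            am δ part z β m t = am δ part z β m' s := by
          intro m hm m' hm' l hl hl2 l' hl' hl2' t t' s s' e1 e2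
          have q1 : l = e := by
            by_contra h
            exact hl2 (Finset.mem_erase.2 ⟨h, hl⟩)
          have q2 : l' = e := by
            by_contra h
            exact hl2' (Finset.mem_erase.2 ⟨h, hl'⟩)
          subst q1
          rw [e1, e2, q2]
          rw [q2] at e2
          exact hleaf m (Finset.mem_erase.1 hm).2 m' (Finset.mem_erase.1 hm').2
            (Finset.mem_erase.1 hm).1 (Finset.mem_erase.1 hm').1 t' t s' s e1.symm e2.symm
        by_cases h3 : 2 ≤ n - 1
        · obtain ⟨m1, hm1, m2, hm2, hne, hl1, hl2⟩ := ih (n - 1) (by omega) (S.erase e) hcard h3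
            (by omega)
          rcases glue (am δ part z β) S (S.erase e) hsh hm1 hm2 hne hl1
            hl2 with h | h
          · exact ⟨e, heS, m1, (Finset.mem_erase.1 hm1).2, (Finset.mem_erase.1 hm1).1.symm,
              hleaf, h⟩
          · exact ⟨e, heS, m2, (Finset.mem_erase.1 hm2).2, (Finset.mem_erase.1 hm2).1.symm,
              hleaf, h⟩
        · obtain ⟨m1, hm1⟩ := Finset.card_eq_one.1 (show (S.erase e).card = 1 by omega)
          have hm1' : m1 ∈ S.erase e := by
            rw [hm1]
            exact Finset.mem_singleton_self _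
          refine ⟨e, heS, m1, (Finset.mem_erase.1 hm1').2, (Finset.mem_erase.1 hm1').1.symm,
            hleaf, ?_⟩
          intro p hp q hq hpe hqe t t' s s' e1 e2
          have r1 : p ∉ S.erase e := by
            rw [hm1, Finset.mem_singleton]
            exact hpe
          have r2 : q ∉ S.erase e := by
            rw [hm1, Finset.mem_singleton]
            exact hqe
          exact hsh m1 hm1' m1 hm1' p hp r1 q hq r2 t t' s s' e1 e2
      · -- every copy used contains at least two members
        push Not at hsing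
        have hF2 : ∀ B ∈ S.image Prod.snd, 2 ≤ (F B).card := by
          intro B hB
          obtain ⟨e, he, rfl⟩ := Finset.mem_image.1 hB
          have hpos : 0 < (F e.2).card :=
            Finset.card_pos.2 ⟨e, Finset.mem_filter.2 ⟨he, rfl⟩⟩
          by_contra hlt
          obtain ⟨x, hx⟩ := Finset.card_eq_one.1 (show (F e.2).card = 1 by omega)
          have hex : e ∈ F e.2 := Finset.mem_filter.2 ⟨he, rfl⟩
          rw [hx, Finset.mem_singleton] at hex
          rw [← hex] at hx
          exact hsing e he hx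
        have hcount : 2 * (S.image Prod.snd).card ≤ S.card := by
          have h4 : S.card = ∑ B ∈ S.image Prod.snd, (F B).card :=
            Finset.card_eq_sum_card_fiberwise (fun p hp => Finset.mem_coe.2
              (Finset.mem_image.2 ⟨p, hp, rfl⟩))
          rw [h4]
          have h5 : ∑ _B ∈ S.image Prod.snd, 2 ≤ ∑ B ∈ S.image Prod.snd, (F B).card :=
            Finset.sum_le_sum hF2
          rw [Finset.sum_const, smul_eq_mul] at h5
          omega
        have hk2 : 2 ≤ (S.image Prod.snd).card := by
          by_contra hlt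
          have hne : S.Nonempty := Finset.card_pos.1 (by omega)
          obtain ⟨p, hp⟩ := hne
          have hpos : 0 < (S.image Prod.snd).card :=
            Finset.card_pos.2 ⟨p.2, Finset.mem_image.2 ⟨p, hp, rfl⟩⟩
          obtain ⟨B, hB⟩ := Finset.card_eq_one.1
            (show (S.image Prod.snd).card = 1 by omega)
          obtain ⟨q, hq, hqB⟩ := hone B
          have : q.2 ∈ S.image Prod.snd := Finset.mem_image.2 ⟨q, hq, rfl⟩
          rw [hB, Finset.mem_singleton] at this
          exact hqB this
        obtain ⟨B1, hB1, B2, hB2, hBne, hLf1, hLf2⟩ := hβs (S.image Prod.snd) hk2 (by omega)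
        have find : ∀ B ∈ S.image Prod.snd, Leaf β (S.image Prod.snd) B →
            ∃ m ∈ S, m.2 = B ∧ Leaf (am δ part z β) S m := by
          intro B hB hLf
          have hFS : F B ⊆ S := Finset.filter_subset _ _
          obtain ⟨m1, hm1, m2, hm2, hne, hl1, hl2⟩ := single B (F B) hFS
            (fun p hp => (Finset.mem_filter.1 hp).2) (hF2 B hB)
          have hsh : ∀ m ∈ F B, ∀ m' ∈ F B, ∀ l ∈ S, l ∉ F B → ∀ l' ∈ S, l' ∉ F B →
              ∀ t t' s s', am δ part z β m t = am δ part z β l t' →
              am δ part z β m' s = am δ part z β l' s' →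
              am δ part z β m t = am δ part z β m' s := by
            intro m hm m' hm' l hl hlF l' hl' hlF' t t' s s' e1 e2
            have n1 : l.2 ≠ B := fun h => hlF (Finset.mem_filter.2 ⟨hl, h⟩)
            have n2 : l'.2 ≠ B := fun h => hlF' (Finset.mem_filter.2 ⟨hl', h⟩)
            have b1 : m.2 = B := (Finset.mem_filter.1 hm).2
            have b2 : m'.2 = B := (Finset.mem_filter.1 hm').2
            obtain ⟨a1, a1', c1⟩ := cp_ne part z β (by rw [b1]; exact n1.symm) e1
            obtain ⟨a2, a2', c2⟩ := cp_ne part z β (by rw [b2]; exact n2.symm) e2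
            rw [b1] at c1
            rw [b2] at c2
            have := hLf l.2 (Finset.mem_image.2 ⟨l, hl, rfl⟩) l'.2
              (Finset.mem_image.2 ⟨l', hl', rfl⟩) n1 n2 _ _ _ _ c1 c2
            have h6 := congrArg Subtype.val (hβ B this)
            simp only at h6
            show cp part z β m.2 (δ m.1 t) = cp part z β m'.2 (δ m'.1 s)
            rw [b1, b2, h6]
          rcases glue (am δ part z β) S (F B) hsh hm1 hm2 hne hl1 hl2 with h | h
          · exact ⟨m1, hFS hm1, (Finset.mem_filter.1 hm1).2, h⟩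
          · exact ⟨m2, hFS hm2, (Finset.mem_filter.1 hm2).2, h⟩
        obtain ⟨m1, hm1, hm1B, hl1⟩ := find B1 hB1 hLf1
        obtain ⟨m2, hm2, hm2B, hl2⟩ := find B2 hB2 hLf2
        exact ⟨m1, hm1, m2, hm2, fun h => hBne (by rw [← hm1B, ← hm2B, h]), hl1, hl2⟩
  exact fun S h2 hg' => main S.card S rfl h2 hg'

end Amalgam

/-- The statement for girth `g`. -/
def Good (g : ℕ) : Prop :=
  ∀ (T K : Type) [Finite T] [Finite K] [Nonempty K], ∃ (V M : Type) (_ : Finite V) (_ : Finite M)
    (δ : M → T → V), (∀ m, Function.Injective (δ m)) ∧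
    (∀ c : V → K, ∃ m, ∀ t t', c (δ m t) = c (δ m t')) ∧ Sparse g δ

theorem good_one : Good 1 := by
  intro T K _ _ _
  classical
  have := Fintype.ofFinite T
  have := Fintype.ofFinite K
  let V : Type := Fin (Fintype.card K * Fintype.card T + 1)
  refine ⟨V, T ↪ V, inferInstance, inferInstance, fun m => m, fun m => m.injective, ?_, ?_⟩
  · intro c
    obtain ⟨k, hk⟩ := Fintype.exists_lt_card_fiber_of_mul_lt_card (f := c)
      (n := Fintype.card T) (by
        show _ < Fintype.card (Fin _)
        rw [Fintype.card_fin]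
        omega)
    have h1 : Fintype.card T ≤ Fintype.card {v : V // c v = k} := by
      rw [Fintype.card_subtype]
      exact hk.le
    obtain ⟨e⟩ := Function.Embedding.nonempty_of_card_le h1
    refine ⟨e.trans (Function.Embedding.subtype _), fun t t' => ?_⟩
    show c (e t).1 = c (e t').1
    rw [(e t).2, (e t').2]
  · intro S h2 h1
    omega

theorem good_succ {g : ℕ} (hg : 1 ≤ g) (h : Good g) : Good (g + 1) := by
  intro T K _ _ _
  classical
  obtain ⟨Z, M0, hZ, hM0, δ0, hδ0, hc0, _⟩ := good_one T K
  have := Fintype.ofFinite Z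
  -- the iteration
  have main : ∀ D : Finset Z, ∃ (V M : Type) (_ : Finite V) (_ : Finite M) (δ : M → T → V)
      (part : V → Z), (∀ m, Function.Injective (fun t => part (δ m t))) ∧ Sparse (g + 1) δ ∧
      ∀ c : V → K, ∃ e : M0 → M, (∀ m t, part (δ (e m) t) = δ0 m t) ∧
        ∀ m t m' t', δ0 m t = δ0 m' t' → δ0 m t ∈ D → c (δ (e m) t) = c (δ (e m') t') := by
    intro D
    induction D using Finset.induction_on with
    | empty =>
      refine ⟨M0 × T, M0, inferInstance, hM0, fun m t => (m, t), fun v => δ0 v.1 v.2, hδ0,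
        ?_, ?_⟩
      · intro S h2 _
        obtain ⟨m, hm, m', hm', hne⟩ := Finset.one_lt_card.1 (show 1 < S.card by omega)
        refine ⟨m, hm, m', hm', hne, ?_, ?_⟩
        · intro k _ _ _ hk _ t t' _ _ e _
          exact absurd (congrArg Prod.fst e).symm hk
        · intro k _ _ _ hk _ t t' _ _ e _
          exact absurd (congrArg Prod.fst e).symm hk
      · intro c
        exact ⟨id, fun m t => rfl, fun m t m' t' _ hD => absurd hD (Finset.notMem_empty _)⟩
    | insert z D _ ih =>
      obtain ⟨V, M, hV, hM, δ, part, hδ, hδs, hc⟩ := ih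
      obtain ⟨VB, MB, hVB, hMB, β, hβ, hcβ, hβs⟩ := h {v : V // part v = z} K
      let part' : VB ⊕ (V × MB) → Z := fun u => match u with
        | Sum.inl _ => z
        | Sum.inr p => part p.1
      have hpart : ∀ B v, part' (cp part z β B v) = part v := by
        intro B v
        by_cases hv : part v = z
        · simp only [cp, dif_pos hv]
          exact hv.symm
        · simp only [cp, dif_neg hv]
          rfl
      refine ⟨VB ⊕ (V × MB), M × MB, inferInstance, inferInstance, am δ part z β, part', ?_,
        am_sparse δ part z β hg hδ hδs hβ hβs, ?_⟩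
      · rintro ⟨m, B⟩ t t' htt
        apply hδ m
        simp only [am, hpart] at htt
        exact htt
      · intro c
        obtain ⟨B, hB⟩ := hcβ (fun x => c (Sum.inl x))
        obtain ⟨e, he1, he2⟩ := hc (fun v => c (cp part z β B v))
        refine ⟨fun m => (e m, B), fun m t => ?_, fun m t m' t' heq hD => ?_⟩
        · show part' (cp part z β B (δ (e m) t)) = _
          rw [hpart, he1]
        · show c (cp part z β B (δ (e m) t)) = c (cp part z β B (δ (e m') t'))
          rcases Finset.mem_insert.1 hD with hz | hz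
          · have h1 : part (δ (e m) t) = z := by rw [he1, hz]
            have h2 : part (δ (e m') t') = z := by rw [he1, ← heq, hz]
            simp only [cp, dif_pos h1, dif_pos h2]
            exact hB _ _
          · exact he2 m t m' t' heq hz
  obtain ⟨V, M, hV, hM, δ, part, hδ, hδs, hc⟩ := main Finset.univ
  refine ⟨V, M, hV, hM, δ, fun m t t' htt => hδ m (by simp only [htt]), ?_, hδs⟩
  intro c
  obtain ⟨e, he1, he2⟩ := hc c
  let c0 : Z → K := fun z => if hz : ∃ p : M0 × T, δ0 p.1 p.2 = z then
    c (δ (e hz.choose.1) hz.choose.2) else Classical.arbitrary K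
  have hc0' : ∀ m t, c0 (δ0 m t) = c (δ (e m) t) := by
    intro m t
    have hz : ∃ p : M0 × T, δ0 p.1 p.2 = δ0 m t := ⟨(m, t), rfl⟩
    simp only [c0, dif_pos hz]
    exact he2 _ _ _ _ hz.choose_spec (Finset.mem_univ _)
  obtain ⟨m, hm⟩ := hc0 c0
  refine ⟨e m, fun t t' => ?_⟩
  rw [← hc0', ← hc0']
  exact hm t t'

/-- Uniform hypergraphs of large chromatic number and large girth. -/
theorem good (g : ℕ) : Good (g + 1) := by
  induction g with
  | zero => exact good_one
  | succ g ih => exact good_succ (by omega) ih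

end Pool.Agent.Lib.MP_3240be_co.H36.Chrom
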