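import Mathlib
import Pool.Agent.Lib.MP_3240be_co.H36.Chrom.Canonical
import Pool.Agent.Lib.MP_3240be_co.H36.Chrom.Gadget

set_option autoImplicit false

/-!
# Ramsey equivalence for graphs that no bipartite set separates
-/

namespace Pool.Agent.Lib.MP_3240be_co.H36.Chrom

/-- `F → H` for a graph `F` on an arbitrary finite vertex type. -/
def ArrowsT {V : Type} (F : SimpleGraph V) {n : ℕ} (H : SimpleGraph (Fin n)) : Prop :=
  ∀ c : V → V → Bool, (∀ x y, c x y = c y x) →
    ∃ b : Bool, ∃ f : Fin n → V, Function.Injective f ∧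
      ∀ i j : Fin n, H.Adj i j → F.Adj (f i) (f j) ∧ c (f i) (f j) = b

theorem arrowsT_equiv {V V' : Type} (ε : V ≃ V') (F : SimpleGraph V) {n : ℕ}
    (H : SimpleGraph (Fin n)) :
    ArrowsT (F.comap ε.symm) H ↔ ArrowsT F H := by
  constructor
  · intro h c hc
    obtain ⟨b, f, hf, hf'⟩ := h (fun x y => c (ε.symm x) (ε.symm y)) (fun x y => hc _ _)
    exact ⟨b, fun i => ε.symm (f i), ε.symm.injective.comp hf, fun i j hij => hf' i j hij⟩
  · intro h c hc
    obtain ⟨b, f, hf, hf'⟩ := h (fun x y => c (ε x) (ε y)) (fun x y => hc _ _)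
    refine ⟨b, fun i => ε (f i), ε.injective.comp hf, fun i j hij => ⟨?_, (hf' i j hij).2⟩⟩
    rw [SimpleGraph.comap_adj, Equiv.symm_apply_apply, Equiv.symm_apply_apply]
    exact (hf' i j hij).1

/-- The graph with the edges of all colours. -/
def union {V : Type} {r : ℕ} (E : Fin r → V → V → Prop) (hs : ∀ b x y, E b x y → E b y x)
    (hi : ∀ b x, ¬ E b x x) : SimpleGraph V where
  Adj x y := ∃ b, E b x y
  symm := ⟨fun x y ⟨b, h⟩ => ⟨b, hs b x y h⟩⟩
  loopless := ⟨fun x ⟨b, h⟩ => hi b x h⟩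

/-- If `H` has no copy in `H'` then some Ramsey graph of `H'` contains no copy of `H`. -/
theorem host_one {n n' : ℕ} (H : SimpleGraph (Fin n)) (hH : CC H) (H' : SimpleGraph (Fin n'))
    (hno : ¬ ∃ f : Fin n → Fin n', Function.Injective f ∧ ∀ x y, H.Adj x y → H'.Adj (f x) (f y)) :
    ∃ (V : Type) (_ : Finite V) (F : SimpleGraph V), ArrowsT F H' ∧ ¬ ArrowsT F H := by
  obtain ⟨V, hV, E', part, hs, hi, hd, hlift, -, -, -, hcan⟩ := canonical (r := 1) (n := n')
    (Q := Empty) Bool
    (fun _ s t => ∃ x y, s = Sum.inl x ∧ t = Sum.inl y ∧ H'.Adj x y)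
    (fun _ s t ⟨x, y, h1, h2, h3⟩ => ⟨y, x, h2, h1, h3.symm⟩)
    (fun _ s ⟨x, y, h1, h2, h3⟩ => h3.ne (Sum.inl_injective (h1.symm.trans h2)))
    (fun _ _ _ _ _ _ => Subsingleton.elim _ _)
  refine ⟨V, hV, union E' hs hi, ?_, ?_⟩
  · intro c hc
    obtain ⟨e, he1, he2, φ, hφ⟩ := hcan c hc
    refine ⟨φ 0, fun x => e (Sum.inl x), he1.comp Sum.inl_injective, fun i j hij => ?_⟩
    exact ⟨⟨0, he2 0 _ _ ⟨i, j, rfl, rfl, hij⟩⟩, hφ 0 i j ⟨i, j, rfl, rfl, hij⟩⟩
  · intro h
    obtain ⟨_, f, hf, hf'⟩ := h (fun _ _ => true) (fun _ _ => rfl)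
    obtain ⟨g, hg1, hg2, -⟩ := hlift (Fin n) H hH f (fun x y hxy => (hf' x y hxy).1)
    have hgl : ∀ x, ∃ y, g x = Sum.inl y := by
      intro x
      rcases g x with y | q
      · exact ⟨y, rfl⟩
      · exact q.elim
    choose g' hg' using hgl
    apply hno
    refine ⟨g', ?_, ?_⟩
    · intro x y hxy
      apply hf
      apply hg2
      rw [hg', hg', hxy]
    · intro x y hxy
      obtain ⟨b, hb⟩ := (hf' x y hxy).1
      obtain ⟨x', y', h1, h2, h3⟩ := hg1 b x y hxy hb
      rw [hg' x] at h1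
      rw [hg' y] at h2
      rw [Sum.inl_injective h1, Sum.inl_injective h2]
      exact h3

/-- If `H'` is connected and contains `H` but is not a subgraph of `H` then some Ramsey graph of
`H` is not Ramsey for `H'`. -/
theorem host_two {n n' : ℕ} (H : SimpleGraph (Fin n)) (hH : CC H) (H' : SimpleGraph (Fin n'))
    (hconn : H'.Connected)
    (hyes : ∃ f : Fin n → Fin n', Function.Injective f ∧ ∀ x y, H.Adj x y → H'.Adj (f x) (f y))
    (hno : ¬ ∃ f : Fin n' → Fin n, Function.Injective f ∧ ∀ x y, H'.Adj x y → H.Adj (f x) (f y)) :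
    ∃ (V : Type) (_ : Finite V) (F : SimpleGraph V), ArrowsT F H ∧ ¬ ArrowsT F H' := by
  classical
  have hne : Nonempty (Fin n) := by
    obtain ⟨⟨x, _⟩, _⟩ := hH (fun _ => False) (fun _ => False) (fun _ _ h => h.elim)
      (fun _ _ h => h.elim)
    exact ⟨x⟩
  obtain ⟨a⟩ := hne
  obtain ⟨b, hab⟩ := hH.nbr a
  have : Nonempty (Bool × Fin n) := ⟨(true, a)⟩
  obtain ⟨G, M, hG, hM, δ, hδ, hc, hsp⟩ := good (n * n) {y : Fin n // H.Adj a y} (Bool × Fin n)
  have hsp' : Sparse (n * n) δ := fun S h1 h2 => hsp S h1 (by omega)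
  obtain ⟨N, ⟨ε⟩⟩ := Finite.exists_equiv_fin (GD n G M)
  let τ : Fin N ⊕ Fin n → GD n G M ⊕ Fin n := Sum.map ε.symm id
  have hτl : ∀ d, τ (Sum.inl d) = Sum.inl (ε.symm d) := fun d => rfl
  have hτr : ∀ q, τ (Sum.inr q) = Sum.inr q := fun q => rfl
  have hτi : Function.Injective τ := Sum.map_injective.2 ⟨ε.symm.injective, Function.injective_id⟩
  have hsy : ∀ c s t, EG H a b a δ c s t → EG H a b a δ c t s := by
    intro c s t h
    unfold EG at h ⊢
    split_ifs at h ⊢ with h1
    · exact EB_symm h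
    · exact ER_symm h
  have hir : ∀ c s, ¬ EG H a b a δ c s s := by
    intro c s h
    unfold EG at h
    split_ifs at h with h1
    · exact EB_irrefl s h
    · exact ER_irrefl hab.ne hδ s h
  have hdj : ∀ c c' s t, EG H a b a δ c s t → EG H a b a δ c' s t → c = c' := by
    intro c c' s t h h'
    unfold EG at h h'
    split_ifs at h h' with h1 h2 h3
    · rw [h1, h2]
    · exact (E_disj h h').elim
    · exact (E_disj h' h).elim
    · rw [Fin.eq_one_of_ne_zero c h1, Fin.eq_one_of_ne_zero c' h3]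
  obtain ⟨V, hV, E', part, hs, hi, hd, hlift, ⟨ι, idd, hid1, hid2⟩, hpp, hpd, hcan⟩ :=
    canonical (r := 2) (n := N) (Q := Fin n) Bool (fun c s t => EG H a b a δ c (τ s) (τ t))
      (fun c s t h => hsy c _ _ h) (fun c s h => hir c _ h) (fun c c' s t h h' => hdj _ _ _ _ h h')
  refine ⟨V, hV, union E' hs hi, ?_, ?_⟩
  · intro c hcs
    obtain ⟨e, he1, he2, φ, hφ⟩ := hcan c hcs
    let τ' : GD n G M ⊕ Fin n → Fin N ⊕ Fin n := Sum.map ε id
    have hττ : ∀ s, τ (τ' s) = s := by
      intro s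
      rcases s with d | q
      · simp [τ, τ']
      · simp [τ, τ']
    have hτ'i : Function.Injective τ' := fun s t h => by rw [← hττ s, ← hττ t, h]
    obtain ⟨β, f, hf1, hf2⟩ := mono_copy hab ⟨b, hab⟩ hδ hc
      (fun s t => c (e (τ' s)) (e (τ' t))) (fun s t => hcs _ _) φ (by
        intro k d d' h
        refine hφ k (ε d) (ε d') ?_
        rw [hτl, hτl, Equiv.symm_apply_apply, Equiv.symm_apply_apply]
        exact h)
    refine ⟨β, fun i => e (τ' (f i)), he1.comp (hτ'i.comp hf1), fun i j hij => ?_⟩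
    obtain ⟨⟨k, hk⟩, h2⟩ := hf2 i j hij
    refine ⟨⟨k, he2 k _ _ ?_⟩, h2⟩
    rw [hττ, hττ]
    exact hk
  · intro h
    obtain ⟨β, f', hf', hmono⟩ := h (fun x y => decide (E' 1 x y)) (fun x y => by
      by_cases h1 : E' 1 x y
      · rw [decide_eq_true h1, decide_eq_true (hs 1 x y h1)]
      · have h2 : ¬ E' 1 y x := fun h2 => h1 (hs 1 y x h2)
        rw [decide_eq_false h1, decide_eq_false h2])
    obtain ⟨j, hj1, hj2⟩ := hyes
    obtain ⟨g, hg1, hg2, hg3⟩ := hlift (Fin n) H hH (fun x => f' (j x))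
      (fun x y hxy => (hmono _ _ (hj2 x y hxy)).1)
    have hginj : Function.Injective (fun x => τ (g x)) := by
      intro x y hxy
      exact hj1 (hf' (hg2 x y (hτi hxy)))
    rcases Bool.eq_false_or_eq_true β with hβ | hβ
    · -- red
      subst hβ
      have hred : ∀ x y, H'.Adj x y → E' 1 (f' x) (f' y) := by
        intro x y hxy
        exact of_decide_eq_true (hmono x y hxy).2
      have hpass := red_pass (H := H) (a := a) (b := b) (w := a) (δ := δ) hH hsp'
        (fun x => τ (g x)) hginj (by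
          intro x y hxy
          have := hg1 1 x y hxy (hred _ _ (hj2 x y hxy))
          simpa [EG] using this)
      have hpart : ∀ x, ∃ q, part (f' (j x)) = some q := by
        intro x
        obtain ⟨q, hq⟩ := hpass x
        refine ⟨q, hg3 x q ?_⟩
        exact hτi hq
      -- all vertices of `H'` are passengers of the same block
      have hall : ∀ x, (∃ q, part (f' x) = some q) ∧ idd (f' x) = idd (f' (j a)) := by
        intro x
        obtain ⟨p⟩ := hconn.preconnected (j a) x
        have main : ∀ (u v : Fin n') (p : H'.Walk u v), ((∃ q, part (f' u) = some q) ∧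
            idd (f' u) = idd (f' (j a))) → (∃ q, part (f' v) = some q) ∧
            idd (f' v) = idd (f' (j a)) := by
          intro u v p
          induction p with
          | nil => exact fun h => h
          | cons hadj p ih =>
            rintro ⟨⟨q, hq⟩, hid⟩
            apply ih
            have hE := hred _ _ hadj
            rename_i x1 x2 x3
            rcases hpx : part (f' x2) with _ | q'
            · obtain ⟨d, hd⟩ := hpd 1 _ _ q hE hq hpx
              exfalso
              rw [hτl, hτr] at hd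
              simp only [EG, Fin.isValue, one_ne_zero, if_false] at hd
              rcases hd with ⟨_, _, _, hs, _⟩ | ⟨_, q', _, _, ht⟩ |
                ⟨_, _, _, _, _, _, _, _, _, _, _, _, hs, _⟩
              · simp at hs
              · simp at ht
              · simp at hs
            · exact ⟨⟨q', rfl⟩, by rw [← hid, hid1 1 _ _ q q' hE hq hpx]⟩
        exact main _ _ p ⟨hpart a, rfl⟩
      choose h hh1 using fun x => (hall x).1
      have hh2 := fun x => (hall x).2
      apply hno
      refine ⟨h, ?_, ?_⟩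
      · intro x y hxy
        apply hf'
        exact hid2 _ _ (h x) (hh1 x) (by rw [hxy]; exact hh1 y) (by rw [hh2, hh2 y])
      · intro x y hxy
        have := hpp 1 _ _ _ _ (hred x y hxy) (hh1 x) (hh1 y)
        rw [hτr, hτr] at this
        simp only [EG, Fin.isValue, one_ne_zero, if_false] at this
        rcases this with ⟨_, _, _, hs, _⟩ | ⟨q, q', hq, hs, ht⟩ |
          ⟨_, _, _, _, _, _, _, _, _, _, _, _, hs, _⟩
        · simp at hs
        · rw [Sum.inr_injective hs, Sum.inr_injective ht]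
          exact hq
        · simp at hs
    · -- blue
      subst hβ
      refine no_blue (G := G) (M := M) hH hab (fun x => τ (g x)) hginj ?_
      intro x y hxy
      obtain ⟨⟨k, hk⟩, h2⟩ := hmono _ _ (hj2 x y hxy)
      have hk1 : k ≠ 1 := by
        rintro rfl
        rw [decide_eq_true hk] at h2
        exact absurd h2 (by decide)
      have hk0 : k = 0 := by
        by_contra h0
        exact hk1 (Fin.eq_one_of_ne_zero k h0)
      subst hk0
      have := hg1 0 x y hxy hk
      simpa [EG] using this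

/-- The two inclusions give an isomorphism. -/
theorem iso_of_le {n n' : ℕ} (H : SimpleGraph (Fin n)) (H' : SimpleGraph (Fin n'))
    (h1 : ∃ f : Fin n → Fin n', Function.Injective f ∧ ∀ x y, H.Adj x y → H'.Adj (f x) (f y))
    (h2 : ∃ f : Fin n' → Fin n, Function.Injective f ∧ ∀ x y, H'.Adj x y → H.Adj (f x) (f y)) :
    Nonempty (H ≃g H') := by
  obtain ⟨f, hf1, hf2⟩ := h1
  obtain ⟨g, hg1, hg2⟩ := h2
  have hcard : Fintype.card (Fin n) = Fintype.card (Fin n') :=
    le_antisymm (Fintype.card_le_of_injective f hf1) (Fintype.card_le_of_injective g hg1)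
  have hbij : Function.Bijective f := (Fintype.bijective_iff_injective_and_card f).2 ⟨hf1, hcard⟩
  refine ⟨⟨Equiv.ofBijective f hbij, ?_⟩⟩
  intro x y
  simp only [Equiv.ofBijective_apply]
  constructor
  · intro h
    obtain ⟨p, q, hpq, e1, e2⟩ := surj_edge (fun z => g (f z)) (hg1.comp hf1)
      (fun p q hpq => hg2 _ _ (hf2 _ _ hpq)) _ _ (hg2 _ _ h)
    rw [← hf1 (hg1 e1), ← hf1 (hg1 e2)]
    exact hpq
  · exact hf2 x y

/-- A graph that no bipartite set separates is not Ramsey-equivalent to any other connected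
graph. -/
theorem main {n n' : ℕ} (H : SimpleGraph (Fin n)) (hH : CC H) (H' : SimpleGraph (Fin n'))
    (hconn : H'.Connected) (hiso : IsEmpty (H ≃g H')) :
    ∃ (m : ℕ) (F : SimpleGraph (Fin m)), ¬ (ArrowsT F H ↔ ArrowsT F H') := by
  by_cases h1 : ∃ f : Fin n → Fin n', Function.Injective f ∧
      ∀ x y, H.Adj x y → H'.Adj (f x) (f y)
  · by_cases h2 : ∃ f : Fin n' → Fin n, Function.Injective f ∧
        ∀ x y, H'.Adj x y → H.Adj (f x) (f y)
    · obtain ⟨e⟩ := iso_of_le H H' h1 h2
      exact (hiso.false e).elim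
    · obtain ⟨V, hV, F, hF1, hF2⟩ := host_two H hH H' hconn h1 h2
      obtain ⟨m, ⟨ε⟩⟩ := Finite.exists_equiv_fin V
      refine ⟨m, F.comap ε.symm, ?_⟩
      rw [arrowsT_equiv, arrowsT_equiv]
      exact fun h => hF2 (h.1 hF1)
  · obtain ⟨V, hV, F, hF1, hF2⟩ := host_one H hH H' h1
    obtain ⟨m, ⟨ε⟩⟩ := Finite.exists_equiv_fin V
    refine ⟨m, F.comap ε.symm, ?_⟩
    rw [arrowsT_equiv, arrowsT_equiv]
    exact fun h => hF2 (h.2 hF1)

end Pool.Agent.Lib.MP_3240be_co.H36.Chrom
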